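import Pool.Agent.helper71.DSW.SpecC

/-!
# Row dsw:CSM (MP_a87880_co): the product over the connected sets
-/

set_option autoImplicit false

namespace Pool.Agent.DSW

open Equiv Finset Function Pool.Agent.helper48.PP
open scoped ENNReal Classical

noncomputable section

theorem CSM_geo {q : ℝ} (h0 : 0 ≤ q) (h1 : q ≤ 1 / 2) (n : ℕ) :
    ∑ r ∈ Finset.Icc 3 n, q ^ r ≤ 2 * q ^ 3 := by
  have h2 : ∑ r ∈ Finset.Icc 3 n, q ^ r ≤ q ^ 3 * ∑ i ∈ Finset.range n, q ^ i := by
    rw [Finset.mul_sum]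
    have h3 : ∑ r ∈ Finset.Icc 3 n, q ^ r = ∑ i ∈ Finset.range (n + 1 - 3), q ^ 3 * q ^ i := by
      rw [← Finset.Ico_add_one_right_eq_Icc, Finset.sum_Ico_eq_sum_range]
      refine Finset.sum_congr rfl fun i _ => ?_
      rw [pow_add]
    rw [h3]
    refine Finset.sum_le_sum_of_subset_of_nonneg ?_ (fun i _ _ => by positivity)
    intro i hi
    rw [Finset.mem_range] at hi ⊢
    omega
  have h3 := mul_neg_geom_sum q n
  have h4 : 0 ≤ ∑ i ∈ Finset.range n, q ^ i := Finset.sum_nonneg fun i _ => by positivity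
  have h5 : 0 ≤ q ^ n := by positivity
  have h6 : ∑ i ∈ Finset.range n, q ^ i ≤ 2 := by nlinarith
  have h7 : 0 ≤ q ^ 3 := by positivity
  nlinarith

theorem CSM_sum (hWLK : WLK_stmt) (L : ℕ) {x : ℝ} (h0 : 0 ≤ x) (h1 : x ≤ 1 / 32) :
    ∑ R ∈ CN L, x ^ R.card ≤ (L * L : ℕ) * (2 * (16 * x) ^ 3) := by
  have h2 : ∑ R ∈ CN L, x ^ R.card ≤
      ∑ u : Fin L × Fin L, ∑ R ∈ (CN L).filter (fun R => u ∈ R), x ^ R.card := by
    have h3 : ∑ u : Fin L × Fin L, ∑ R ∈ (CN L).filter (fun R => u ∈ R), x ^ R.card =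
        ∑ R ∈ CN L, (R.card : ℝ) * x ^ R.card := by
      simp only [Finset.sum_filter]
      rw [Finset.sum_comm]
      refine Finset.sum_congr rfl fun R _ => ?_
      rw [← Finset.sum_filter, Finset.sum_const, nsmul_eq_mul]
      congr 3
      ext u
      simp
    rw [h3]
    refine Finset.sum_le_sum fun R hR => ?_
    have h4 : 3 ≤ R.card := (Finset.mem_filter.1 hR).2.2
    have h5 : (1 : ℝ) ≤ (R.card : ℝ) := by exact_mod_cast (by omega : 1 ≤ R.card)
    have h6 : 0 ≤ x ^ R.card := by positivity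
    nlinarith
  refine h2.trans ?_
  have h3 : ∀ u : Fin L × Fin L, ∑ R ∈ (CN L).filter (fun R => u ∈ R), x ^ R.card ≤
      2 * (16 * x) ^ 3 := by
    intro u
    refine le_trans ?_ (CSM_geo (q := 16 * x) (by positivity) (by linarith) (L * L))
    rw [← Finset.sum_fiberwise_of_maps_to (t := Finset.Icc 3 (L * L))
      (g := fun R : Finset (Fin L × Fin L) => R.card)]
    · refine Finset.sum_le_sum fun r _ => ?_
      have h4 : ∀ R ∈ ((CN L).filter (fun R => u ∈ R)).filter (fun R => R.card = r),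
          x ^ R.card = x ^ r := by
        intro R hR
        rw [(Finset.mem_filter.1 hR).2]
      rw [Finset.sum_congr rfl h4, Finset.sum_const, nsmul_eq_mul, mul_pow]
      have h5 : (((CN L).filter (fun R => u ∈ R)).filter (fun R => R.card = r)).card ≤ 16 ^ r := by
        refine le_trans (Finset.card_le_card ?_) (hWLK L r u)
        intro R hR
        rw [Finset.mem_filter, Finset.mem_filter] at hR
        obtain ⟨⟨h6, h7⟩, h8⟩ := hR
        have h9 := (Finset.mem_filter.1 h6).2.1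
        exact Finset.mem_filter.2 ⟨Finset.mem_univ _, h9, h7, h8⟩
      have h6 : ((((CN L).filter (fun R => u ∈ R)).filter (fun R => R.card = r)).card : ℝ) ≤
          16 ^ r := by exact_mod_cast h5
      exact mul_le_mul_of_nonneg_right h6 (by positivity)
    · intro R hR
      rw [Finset.mem_filter] at hR
      have h4 : 3 ≤ R.card := (Finset.mem_filter.1 hR.1).2.2
      have h5 : R.card ≤ L * L := by
        have := Finset.card_le_univ R
        simpa using this
      exact Finset.mem_Icc.2 ⟨h4, h5⟩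
  refine (Finset.sum_le_sum fun u _ => h3 u).trans ?_
  rw [Finset.sum_const, nsmul_eq_mul, Finset.card_univ, Fintype.card_prod, Fintype.card_fin]

theorem CSM_exp {y : ℝ} (h0 : 0 ≤ y) (h1 : y ≤ 1 / 2) : Real.exp (-2 * y) ≤ 1 - y := by
  have h2 : Real.exp (-2 * y) = (Real.exp (2 * y))⁻¹ := by
    rw [← Real.exp_neg]
    congr 1
    ring
  have h3 : 2 * y + 1 ≤ Real.exp (2 * y) := Real.add_one_le_exp _
  rw [h2]
  have h4 : 0 < Real.exp (2 * y) := Real.exp_pos _
  rw [inv_le_comm₀ h4 (by linarith)]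
  refine le_trans ?_ h3
  rw [inv_le_comm₀ (by linarith) (by linarith), inv_le_iff_one_le_mul₀ (by linarith)]
  nlinarith

theorem CSM (hWLK : WLK_stmt) : CSM_stmt := by
  intro L x h0 h1
  have h2 := CSM_sum hWLK L h0 h1
  have h3 : Real.exp (-2 * ∑ R ∈ CN L, x ^ R.card) ≤ ∏ R ∈ CN L, (1 - x ^ R.card) := by
    rw [Finset.mul_sum, Real.exp_sum]
    refine Finset.prod_le_prod (fun R _ => (Real.exp_pos _).le) fun R hR => ?_
    have h4 : 3 ≤ R.card := (Finset.mem_filter.1 hR).2.2
    refine CSM_exp (by positivity) ?_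
    have h5 : x ^ R.card ≤ x ^ 1 := pow_le_pow_of_le_one h0 (by linarith) (by omega)
    rw [pow_one] at h5
    linarith
  refine le_trans ?_ h3
  rw [← Real.exp_nat_mul]
  apply Real.exp_le_exp.2
  nlinarith

end

end Pool.Agent.DSW
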